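import Pool.Agent.N889.AO.Stm

/-!
# Project AO (helper889): a diagonal derivation with distinct eigenvalues
-/

set_option autoImplicit false

namespace Pool.Agent.N680.AO

open Pool.Agent.N889.AO Matrix

lemma p4 {i j : ℕ} (h : i < j) : (4 : ℤ) ^ (i + 1) ≤ 4 ^ j :=
  pow_le_pow_right₀ (by norm_num) h

lemma size1 {i j : ℕ} (h : i < j) :
    (4 : ℤ) ^ (j + 1) < 4 ^ (i + 1) + 4 ^ (j + 1) ∧ (4 : ℤ) ^ (i + 1) + 4 ^ (j + 1) < 4 ^ (j + 2) := by
  have h1 := p4 h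
  have h2 : (0 : ℤ) < 4 ^ (i + 1) := by positivity
  have h3 : (0 : ℤ) < 4 ^ j := by positivity
  constructor
  · linarith
  · have e1 : (4 : ℤ) ^ (j + 1) = 4 * 4 ^ j := by ring
    have e2 : (4 : ℤ) ^ (j + 2) = 16 * 4 ^ j := by ring
    linarith

lemma mono4 {i j : ℕ} (h : i ≤ j) : (4 : ℤ) ^ i ≤ 4 ^ j :=
  pow_le_pow_right₀ (by norm_num) h

lemma inj4 {i j : ℕ} (h : (4 : ℤ) ^ i = 4 ^ j) : i = j := by
  have h2 : (4 : ℕ) ^ i = 4 ^ j := by exact_mod_cast h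
  exact Nat.pow_right_injective (by norm_num) h2

/-- the weights -/
def wt {n : ℕ} (G : SimpleGraph (Fin n)) : (Fin n ⊕ G.edgeSet) → ℤ
  | Sum.inl i => 4 ^ (i.val + 1)
  | Sum.inr e => Sym2.lift ⟨fun a b : Fin n => (4 : ℤ) ^ (a.val + 1) + 4 ^ (b.val + 1),
      fun _ _ => add_comm _ _⟩ e.1

lemma wt_inl {n : ℕ} (G : SimpleGraph (Fin n)) (i : Fin n) :
    wt G (Sum.inl i) = 4 ^ (i.val + 1) := rfl

lemma wt_inr {n : ℕ} (G : SimpleGraph (Fin n)) (i j : Fin n) (h : s(i, j) ∈ G.edgeSet) :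
    wt G (Sum.inr ⟨s(i, j), h⟩) = 4 ^ (i.val + 1) + 4 ^ (j.val + 1) := rfl

lemma ne1 {k i j : ℕ} (h : i < j) : (4 : ℤ) ^ (k + 1) ≠ 4 ^ (i + 1) + 4 ^ (j + 1) := by
  intro he
  obtain ⟨h1, h2⟩ := size1 h
  rcases Nat.lt_or_ge j k with hk | hk
  · have := mono4 (show j + 2 ≤ k + 1 by omega)
    linarith
  · have := mono4 (show k + 1 ≤ j + 1 by omega)
    linarith

lemma le2 {i j i' j' : ℕ} (h : i < j) (h' : i' < j')
    (he : (4 : ℤ) ^ (i + 1) + 4 ^ (j + 1) = 4 ^ (i' + 1) + 4 ^ (j' + 1)) : j' ≤ j := by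
  by_contra hc
  obtain ⟨h1, h2⟩ := size1 h
  obtain ⟨h3, h4⟩ := size1 h'
  have := mono4 (show j + 2 ≤ j' + 1 by omega)
  linarith

theorem wt_inj {n : ℕ} (G : SimpleGraph (Fin n)) : Function.Injective (wt G) := by
  intro a b hab
  rcases a with k | e <;> rcases b with k' | e'
  · rw [wt_inl, wt_inl] at hab
    have := inj4 hab
    congr 1
    exact Fin.ext (by omega)
  · obtain ⟨i, j, h, hij, rfl⟩ := edge_cases G e'
    rw [wt_inl, wt_inr] at hab
    exact absurd hab (ne1 hij)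
  · obtain ⟨i, j, h, hij, rfl⟩ := edge_cases G e
    rw [wt_inl, wt_inr] at hab
    exact absurd hab.symm (ne1 hij)
  · obtain ⟨i, j, h, hij, rfl⟩ := edge_cases G e
    obtain ⟨i', j', h', hij', rfl⟩ := edge_cases G e'
    rw [wt_inr, wt_inr] at hab
    have h1 := le2 hij hij' hab
    have h2 := le2 hij' hij hab.symm
    have h3 : j.val = j'.val := le_antisymm h2 h1
    rw [h3] at hab
    have h4 := inj4 (add_right_cancel hab)
    have e1 : i = i' := Fin.ext (by omega)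
    have e2 : j = j' := Fin.ext h3
    subst e1 e2
    rfl

theorem stmDiag : StmDiag := by
  intro n G _
  refine ⟨wt G, wt_inj G, ?_⟩
  intro R _ x y
  funext k
  rcases k with k | e
  · simp [Matrix.mulVec_diagonal, mulc_cG_inl]
  · obtain ⟨i, j, h, hij, rfl⟩ := edge_cases G e
    rw [Pi.add_apply, Matrix.mulVec_diagonal, mulc_cG_inr G R _ _ i j h hij,
      mulc_cG_inr G R _ _ i j h hij, mulc_cG_inr G R _ _ i j h hij]
    simp only [Matrix.mulVec_diagonal]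
    rw [wt_inr, wt_inl, wt_inl]
    push_cast
    ring

end Pool.Agent.N680.AO
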